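import Pool.Agent.Zk11.QD.Gen

/-!
# Weak disorder in dimension at least three: quantum diffusion up to times `λ^{-2-κ}`, `κ < 1/2`

`H = -Δ + λ V_ω` on `ℤ^d`, `d ≥ 3`, `ω_x` iid with any non-degenerate bounded law (no regularity is
needed), at the energies `E` in the interior `(0, 4d)` of the free spectrum. For `κ < 1/2` and
spectral parameters `E + iη` with `λ^{2+κ} ≤ η ≪ λ²` the averaged squared Green function is, on the
spatial scale `λ^{-1} η^{-1/2}`, the kernel of a diffusion stopped at an exponential time. The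
convergence is uniform in `E` on compact subsets of `(0, 4d)`, in the momentum on compact sets and
in the law of the disorder.
-/

set_option autoImplicit false

open scoped BigOperators Topology
open MeasureTheory Filter

namespace Pool.Agent.Results.MP_28b024_mp.UniformQuantumDiffusion

/-- `(H ψ)(x) = -∑_{|y-x|=1} (ψ(y) - ψ(x)) + λ ω_x ψ(x)` -/
noncomputable def H {d : ℕ} (lam : ℝ) (ω : (Fin d → ℤ) → ℝ) (u : (Fin d → ℤ) → ℂ)
    (x : Fin d → ℤ) : ℂ :=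
  -∑ i : Fin d, ((u (x + Pi.single i 1) - u x) + (u (x - Pi.single i 1) - u x)) +
    ((lam * ω x : ℝ) : ℂ) * u x

/-- `u` is the Green function `(H - z)⁻¹ δ_0`: the square summable solution of `(H - z) u = δ_0` -/
def IsGreen {d : ℕ} (lam : ℝ) (ω : (Fin d → ℤ) → ℝ) (z : ℂ) (u : (Fin d → ℤ) → ℂ) : Prop :=
  (Summable fun x => ‖u x‖ ^ 2) ∧ ∀ x, H lam ω u x - z * u x = if x = 0 then 1 else 0

/-- the dispersion relation `∑_i (2 - 2 cos 2πk_i)` of `-Δ`, `k ∈ [0,1]^d` -/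
noncomputable def disp {d : ℕ} (k : Fin d → ℝ) : ℝ := ∑ i, (2 - 2 * Real.cos (2 * Real.pi * k i))

/-- the Poisson kernel `π⁻¹ δ/(y² + δ²)` -/
noncomputable def poisson (δ y : ℝ) : ℝ := Real.pi⁻¹ * (δ / (y ^ 2 + δ ^ 2))

/-- the variance of a law on the line -/
noncomputable def var (μ : Measure ℝ) : ℝ := ∫ s, (s - ∫ t, t ∂μ) ^ 2 ∂μ

theorem isG_of {d : ℕ} {lam : ℝ} {ω : (Fin d → ℤ) → ℝ} {z : ℂ} {u : (Fin d → ℤ) → ℂ} :
    IsGreen lam ω z u ↔ Pool.Agent.Zk11.QD.IsG lam ω z u :=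
  ⟨fun h => ⟨h.1, h.2⟩, fun h => ⟨h.sq, h.eq⟩⟩

/-- **Theorem.** -/
theorem result (d : ℕ) (hd : 3 ≤ d) :
    ∃ ν ν₁ : ℝ → ℝ,
      (∀ E : ℝ, 0 < E → E < 4 * d → 0 < ν E ∧ 0 < ν₁ E ∧
        Tendsto (fun δ : ℝ => ∫ k in Set.Icc (0 : Fin d → ℝ) 1, poisson δ (disp k - E)) (𝓝[>] 0)
          (𝓝 (ν E)) ∧
        ∀ i : Fin d, Tendsto (fun δ : ℝ => ∫ k in Set.Icc (0 : Fin d → ℝ) 1,
          (2 * Real.sin (2 * Real.pi * k i)) ^ 2 * poisson δ (disp k - E)) (𝓝[>] 0)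
          (𝓝 (ν₁ E))) ∧
      ∀ E₁ E₂ b v₀ κ R ε : ℝ, 0 < E₁ → E₂ < 4 * d → 0 < v₀ → 0 < κ → κ < 1 / 2 → 0 < ε →
      ∃ δ : ℝ, 0 < δ ∧ ∀ (μ : Measure ℝ) [IsProbabilityMeasure μ], (∀ᵐ s ∂μ, |s| ≤ b) →
        v₀ ≤ var μ → ∀ (E : ℝ) (P : Fin d → ℝ), E₁ ≤ E → E ≤ E₂ → (∀ j, |P j| ≤ R) →
        ∀ lam η : ℝ, 0 < lam → lam < δ → lam ^ (2 + κ) ≤ η → η ≤ δ * lam ^ 2 →
        (∀ ω : (Fin d → ℤ) → ℝ, ∃! u, IsGreen lam ω ((E : ℂ) + η * Complex.I) u) ∧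
        ∀ G : ((Fin d → ℤ) → ℝ) → (Fin d → ℤ) → ℂ,
          (∀ᵐ ω ∂(Measure.infinitePi fun _ : Fin d → ℤ => μ),
            IsGreen lam ω ((E : ℂ) + η * Complex.I) (G ω)) →
          (Summable fun x => ∫ ω, ‖G ω x‖ ^ 2 ∂(Measure.infinitePi fun _ : Fin d → ℤ => μ)) ∧
          ‖(η : ℂ) * ∑' x : Fin d → ℤ,
              Complex.exp (((∑ j, lam * Real.sqrt η * P j * x j : ℝ) : ℂ) * Complex.I) *
                ((∫ ω, ‖G ω x‖ ^ 2 ∂(Measure.infinitePi fun _ : Fin d → ℤ => μ) : ℝ) : ℂ) -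
            ((Real.pi * ν E / (1 + ν₁ E / (4 * Real.pi * ν E ^ 2 * var μ) *
              ∑ j, P j ^ 2) : ℝ) : ℂ)‖ ≤ ε := by
  have hpi := Real.pi_pos
  refine ⟨fun E => Real.pi⁻¹ * (Pool.Agent.Zk11.QD.g0 d E).im,
    fun E => Real.pi⁻¹ * (Pool.Agent.Zk11.QD.h0 d E).im, ?_, ?_⟩
  · intro E hE0 hE1
    have hg := Pool.Agent.Zk11.QD.g0_pos hd E hE0 hE1
    have hh := Pool.Agent.Zk11.QD.h0_pos hd E hE0 hE1
    refine ⟨by positivity, by positivity, ?_, ?_⟩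
    · refine ((Pool.Agent.Zk11.QD.g0_po hd E).const_mul Real.pi⁻¹).congr fun δ => ?_
      rw [← integral_const_mul, ← Pool.Agent.Zk11.QD.cube_eq]
      rfl
    · intro i
      refine ((Pool.Agent.Zk11.QD.h0_po hd i E).const_mul Real.pi⁻¹).congr fun δ => ?_
      rw [← integral_const_mul, ← Pool.Agent.Zk11.QD.cube_eq]
      refine integral_congr_ae (Eventually.of_forall fun k => ?_)
      unfold poisson disp Pool.Agent.Zk11.QD.po Pool.Agent.Zk11.QD.ek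
      simp only
      ring
  · intro E₁ E₂ b v₀ κ R ε hE₁ hE₂ hv₀ hκ0 hκ1 hε
    obtain ⟨δ, hδ, h⟩ := Pool.Agent.Zk11.QD.fin_gen hd E₁ E₂ hE₁ hE₂ b v₀ hv₀ κ hκ0 hκ1 R ε hε
    refine ⟨δ, hδ, fun μ hμ hb hv E P hEa hEb hP lam η hl0 hl1 hη0 hη1 => ?_⟩
    have hη : 0 < η := lt_of_lt_of_le (Real.rpow_pos_of_pos hl0 _) hη0
    have hz : 0 < ((E : ℂ) + η * Complex.I).im := by simpa using hη
    refine ⟨fun ω => ?_, fun G hG => ?_⟩
    · obtain ⟨u, hu⟩ := Pool.Agent.Zk11.QD.isG_exists lam ω _ hz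
      exact ⟨u, isG_of.2 hu, fun v hv => Pool.Agent.Zk11.QD.isG_unique lam ω _ hz v u
        (isG_of.1 hv) hu⟩
    · have hG' : ∀ᵐ ω ∂(Pool.Agent.Zk11.QD.PZ d μ), Pool.Agent.Zk11.QD.IsG lam ω
          ((E : ℂ) + η * Complex.I) (G ω) := hG.mono fun ω hω => isG_of.1 hω
      refine ⟨Pool.Agent.Zk11.QD.G_summable μ lam _ hz G hG', ?_⟩
      have h1 := h μ hb (var μ) rfl hv E hEa hEb P hP lam η hl0 hl1 hη0 hη1 G hG'
      have hg := Pool.Agent.Zk11.QD.g0_pos hd E (by linarith) (by linarith)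
      have hV : 0 < var μ := by linarith
      have h2 : Real.pi * (Real.pi⁻¹ * (Pool.Agent.Zk11.QD.g0 d E).im) /
          (1 + Real.pi⁻¹ * (Pool.Agent.Zk11.QD.h0 d E).im /
            (4 * Real.pi * (Real.pi⁻¹ * (Pool.Agent.Zk11.QD.g0 d E).im) ^ 2 * var μ) *
              ∑ j, P j ^ 2) =
          (Pool.Agent.Zk11.QD.g0 d E).im / (1 + (Pool.Agent.Zk11.QD.h0 d E).im /
            (4 * (Pool.Agent.Zk11.QD.g0 d E).im ^ 2 * var μ) * ∑ j, P j ^ 2) := by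
        field_simp
      simp only
      rw [h2]
      exact h1

end Pool.Agent.Results.MP_28b024_mp.UniformQuantumDiffusion
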